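import Pool.Agent.H568.PH.Stm

/-!
# Project PH (helper568), task SP: the spacing of the numbers `h √r` (helper976)
-/

set_option autoImplicit false

open Finset Filter Topology Pool.Agent.N792 Pool.Agent.H568.PH

namespace Pool.Agent.H976.PH

theorem spacing {α : Type*} (T : Finset α) (f : α → ℝ) (lo W s : ℝ) (hs : 0 < s) (hW : 0 ≤ W)
    (h1 : ∀ x ∈ T, lo ≤ f x ∧ f x ≤ lo + W) (h2 : ∀ x ∈ T, ∀ y ∈ T, x ≠ y → s ≤ |f x - f y|) :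
    (#T : ℝ) ≤ 1 + W / s := by
  have hnn : ∀ x ∈ T, 0 ≤ (f x - lo) / s := fun x hx =>
    div_nonneg (by linarith [(h1 x hx).1]) hs.le
  have hmap : ∀ x ∈ T, ⌊(f x - lo) / s⌋₊ ∈ range (⌊W / s⌋₊ + 1) := by
    intro x hx
    rw [mem_range, Nat.lt_succ_iff]
    apply Nat.floor_le_floor
    exact div_le_div_of_nonneg_right (by linarith [(h1 x hx).2]) hs.le
  have hinj : Set.InjOn (fun x => ⌊(f x - lo) / s⌋₊) (T : Set α) := by
    intro x hx y hy hxy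
    by_contra hne
    have h3 := h2 x hx y hy hne
    have h4 : |(f x - lo) / s - (f y - lo) / s| < 1 := by
      have a1 := Nat.floor_le (hnn x hx)
      have a2 := Nat.lt_floor_add_one ((f x - lo) / s)
      have b1 := Nat.floor_le (hnn y hy)
      have b2 := Nat.lt_floor_add_one ((f y - lo) / s)
      have e : ⌊(f x - lo) / s⌋₊ = ⌊(f y - lo) / s⌋₊ := hxy
      rw [e] at a1 a2
      rw [abs_lt]
      constructor <;> linarith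
    have h5 : (f x - lo) / s - (f y - lo) / s = (f x - f y) / s := by ring
    rw [h5, abs_div, abs_of_pos hs, div_lt_one hs] at h4
    linarith
  have h3 := Finset.card_le_card_of_injOn _ hmap hinj
  rw [card_range] at h3
  have h4 : (#T : ℝ) ≤ (⌊W / s⌋₊ : ℝ) + 1 := by exact_mod_cast h3
  have h5 := Nat.floor_le (div_nonneg hW hs.le)
  linarith

theorem fib {α β : Type*} [DecidableEq β] (S : Finset α) (f : α → β) (P : Finset β)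
    (hP : ∀ x ∈ S, f x ∈ P) (M : ℝ) (hM : ∀ b ∈ P, (#(S.filter (fun x => f x = b)) : ℝ) ≤ M) :
    (#S : ℝ) ≤ #P * M := by
  rw [Finset.card_eq_sum_card_fiberwise hP]
  push_cast
  calc _ ≤ ∑ _b ∈ P, M := Finset.sum_le_sum hM
    _ = #P * M := by rw [Finset.sum_const, nsmul_eq_mul]

theorem eq_of_cross {x x' y y' g : ℕ} (hx : 0 < x) (hy : 0 < y) (h1 : Nat.gcd x x' = g)
    (h2 : Nat.gcd y y' = g) (h : x' * y = y' * x) : x = y ∧ x' = y' := by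
  have hg : 0 < g := h1 ▸ Nat.gcd_pos_of_pos_left _ hx
  have e1 : Nat.gcd (x * y) (x' * y) = g * y := by rw [Nat.gcd_mul_right, h1]
  have e2 : Nat.gcd (x * y) (x' * y) = x * g := by
    rw [h, mul_comm y' x, Nat.gcd_mul_left, h2]
  have e3 : x = y := by
    have : g * x = g * y := by rw [← e1, e2, mul_comm]
    exact Nat.eq_of_mul_eq_mul_left hg this
  subst e3
  exact ⟨rfl, Nat.eq_of_mul_eq_mul_right hx h⟩

theorem cross_ge {x x' y y' g : ℕ} (hx : 0 < x) (hy : 0 < y) (h1 : Nat.gcd x x' = g)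
    (h2 : Nat.gcd y y' = g) (hne : ¬ (x = y ∧ x' = y')) :
    (g : ℝ) ^ 2 ≤ |(x' : ℝ) * y - y' * x| := by
  have gx : g ∣ x := h1 ▸ Nat.gcd_dvd_left _ _
  have gx' : g ∣ x' := h1 ▸ Nat.gcd_dvd_right _ _
  have gy : g ∣ y := h2 ▸ Nat.gcd_dvd_left _ _
  have gy' : g ∣ y' := h2 ▸ Nat.gcd_dvd_right _ _
  have hd : ((g : ℤ) ^ 2) ∣ ((x' : ℤ) * y - y' * x) := by
    rw [sq]
    apply dvd_sub
    · exact mul_dvd_mul (by exact_mod_cast gx') (by exact_mod_cast gy)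
    · exact mul_dvd_mul (by exact_mod_cast gy') (by exact_mod_cast gx)
  have hnz : ((x' : ℤ) * y - y' * x) ≠ 0 := by
    intro h0
    apply hne
    apply eq_of_cross hx hy h1 h2
    have : (x' : ℤ) * y = y' * x := by linarith
    exact_mod_cast this
  have hle : (g : ℤ) ^ 2 ≤ |(x' : ℤ) * y - y' * x| :=
    Int.le_of_dvd (abs_pos.2 hnz) ((dvd_abs _ _).2 hd)
  exact_mod_cast hle

/-- spacing of the fractions -/
theorem frac_ge {x x' y y' g : ℕ} {B : ℝ} (hx : 0 < x) (hy : 0 < y) (h1 : Nat.gcd x x' = g)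
    (h2 : Nat.gcd y y' = g) (hne : ¬ (x = y ∧ x' = y')) (hxB : (x : ℝ) ≤ B) (hyB : (y : ℝ) ≤ B) :
    (g : ℝ) ^ 2 / B ^ 2 ≤ |(x' : ℝ) / x - y' / y| := by
  have hxR : (0 : ℝ) < x := by exact_mod_cast hx
  have hyR : (0 : ℝ) < y := by exact_mod_cast hy
  have hB : 0 < B := by linarith
  have e : (x' : ℝ) / x - y' / y = (x' * y - y' * x) / (x * y) := by
    field_simp
  rw [e, abs_div, abs_of_pos (mul_pos hxR hyR)]
  have h3 := cross_ge hx hy h1 h2 hne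
  have h4 : (x : ℝ) * y ≤ B ^ 2 := by
    rw [sq]
    exact mul_le_mul hxB hyB hyR.le hB.le
  exact div_le_div₀ (abs_nonneg _) h3 (mul_pos hxR hyR) h4

/-- multiples of `d` -/
theorem mult_card (T : Finset ℕ) (lo W : ℝ) (d : ℕ) (hd : 0 < d) (hW : 0 ≤ W)
    (h1 : ∀ x ∈ T, lo ≤ (x : ℝ) ∧ (x : ℝ) ≤ lo + W) (h2 : ∀ x ∈ T, d ∣ x) :
    (#T : ℝ) ≤ 1 + W / d := by
  apply spacing T (fun x => (x : ℝ)) lo W d (by exact_mod_cast hd) hW h1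
  intro x hx y hy hne
  have hd' : (d : ℤ) ∣ (x : ℤ) - y := dvd_sub (by exact_mod_cast h2 x hx) (by exact_mod_cast h2 y hy)
  have hnz : (x : ℤ) - y ≠ 0 := by
    intro h0
    apply hne
    have : (x : ℤ) = y := by linarith
    exact_mod_cast this
  have hle : (d : ℤ) ≤ |(x : ℤ) - y| := Int.le_of_dvd (abs_pos.2 hnz) ((dvd_abs _ _).2 hd')
  exact_mod_cast hle

theorem min_bound {α β Δ N : ℝ} (hα : 0 < α) (hβ : 0 < β)
    (h1 : N ≤ 9 * α ^ 2 * (1 + 8 * Δ * β ^ 2)) (h2 : N ≤ 9 * β ^ 2 * (1 + 8 * Δ * α ^ 2)) :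
    N ≤ 9 * (α * β) + 72 * Δ * (α ^ 2 * β ^ 2) := by
  rcases le_total α β with h | h
  · have : α ^ 2 ≤ α * β := by rw [sq]; exact mul_le_mul_of_nonneg_left h hα.le
    nlinarith
  · have : β ^ 2 ≤ α * β := by rw [sq]; exact mul_le_mul_of_nonneg_right h hβ.le
    nlinarith

/-- the quadruples -/
noncomputable def QS (H J : ℕ) (Δ : ℝ) : Finset ((ℕ × ℕ) × (ℕ × ℕ)) :=
  ((Ico H (2 * H) ×ˢ Ioc J (2 * J)) ×ˢ (Ico H (2 * H) ×ˢ Ioc J (2 * J))).filter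
    (fun v : (ℕ × ℕ) × (ℕ × ℕ) =>
    |(v.1.1 : ℝ) ^ 2 * v.1.2 - (v.2.1 : ℝ) ^ 2 * v.2.2| ≤ Δ * ((H : ℝ) ^ 2 * J))

theorem QS_bd {H J : ℕ} {Δ : ℝ} {v : (ℕ × ℕ) × (ℕ × ℕ)} (hv : v ∈ QS H J Δ) :
    (H ≤ v.1.1 ∧ v.1.1 < 2 * H) ∧ (J < v.1.2 ∧ v.1.2 ≤ 2 * J) ∧ (H ≤ v.2.1 ∧ v.2.1 < 2 * H) ∧
      (J < v.2.2 ∧ v.2.2 ≤ 2 * J) := by
  unfold QS at hv
  rw [mem_filter, mem_product, mem_product, mem_product, mem_Ico, mem_Ioc, mem_Ico, mem_Ioc] at hv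
  exact ⟨hv.1.1.1, hv.1.1.2, hv.1.2.1, hv.1.2.2⟩

theorem QS_close {H J : ℕ} {Δ : ℝ} (hH : 1 ≤ H) (hJ : 1 ≤ J) (hΔ : 0 ≤ Δ)
    {v : (ℕ × ℕ) × (ℕ × ℕ)} (hv : v ∈ QS H J Δ) :
    |((v.1.1 : ℝ) / v.2.1) ^ 2 - (v.2.2 : ℝ) / v.1.2| ≤ Δ := by
  obtain ⟨-, ⟨h3, -⟩, ⟨h5, -⟩, -⟩ := QS_bd hv
  have hc : |(v.1.1 : ℝ) ^ 2 * v.1.2 - (v.2.1 : ℝ) ^ 2 * v.2.2| ≤ Δ * ((H : ℝ) ^ 2 * J) := by
    unfold QS at hv
    exact (mem_filter.1 hv).2
  have hHR : (1 : ℝ) ≤ H := by exact_mod_cast hH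
  have hJR : (1 : ℝ) ≤ J := by exact_mod_cast hJ
  have h3R : (J : ℝ) ≤ v.1.2 := by exact_mod_cast h3.le
  have h5R : (H : ℝ) ≤ v.2.1 := by exact_mod_cast h5
  have p1 : (0 : ℝ) < v.1.2 := by linarith
  have p2 : (0 : ℝ) < v.2.1 := by linarith
  have e : ((v.1.1 : ℝ) / v.2.1) ^ 2 - (v.2.2 : ℝ) / v.1.2 =
      ((v.1.1 : ℝ) ^ 2 * v.1.2 - (v.2.1 : ℝ) ^ 2 * v.2.2) / ((v.2.1 : ℝ) ^ 2 * v.1.2) := by
    field_simp
  have hden : 0 < (v.2.1 : ℝ) ^ 2 * v.1.2 := by positivity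
  rw [e, abs_div, abs_of_pos hden, div_le_iff₀ hden]
  refine hc.trans (mul_le_mul_of_nonneg_left ?_ hΔ)
  exact mul_le_mul (pow_le_pow_left₀ (by linarith) h5R 2) h3R (by linarith) (by positivity)

/-- the quadruples with given greatest common divisors -/
noncomputable def QT (H J : ℕ) (Δ : ℝ) (d g : ℕ) : Finset ((ℕ × ℕ) × (ℕ × ℕ)) :=
  (QS H J Δ).filter (fun v => (Nat.gcd v.1.1 v.2.1, Nat.gcd v.1.2 v.2.2) = (d, g))

theorem three_bound {X D : ℝ} (hD : 0 < D) (hDX : D ≤ 2 * X) : 1 + X / D ≤ 3 * (X / D) := by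
  have : 1 ≤ 2 * (X / D) := by
    rw [← mul_div_assoc, le_div_iff₀ hD]
    linarith
  linarith

theorem card_sq {A : Finset ℕ} {c : ℝ} (h : (#A : ℝ) ≤ 3 * c) : (#(A ×ˢ A) : ℝ) ≤ 9 * c ^ 2 := by
  rw [card_product]
  push_cast
  have h0 : (0 : ℝ) ≤ #A := Nat.cast_nonneg _
  nlinarith

theorem bound1 {H J : ℕ} {Δ : ℝ} (hH : 1 ≤ H) (hJ : 1 ≤ J) (hΔ : 0 ≤ Δ) {d g : ℕ} (hd : 1 ≤ d)
    (hd2 : d ≤ 2 * H) (hg : 1 ≤ g) :
    (#(QT H J Δ d g) : ℝ) ≤ 9 * ((H : ℝ) / d) ^ 2 * (1 + 8 * Δ * ((J : ℝ) / g) ^ 2) := by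
  have hdR : (0 : ℝ) < d := by exact_mod_cast hd
  have hgR : (0 : ℝ) < g := by exact_mod_cast hg
  have hJR : (1 : ℝ) ≤ J := by exact_mod_cast hJ
  set A : Finset ℕ := (Ico H (2 * H)).filter (fun x => d ∣ x) with hA
  have hAc : (#A : ℝ) ≤ 3 * ((H : ℝ) / d) := by
    refine (mult_card A H H d hd (Nat.cast_nonneg _) ?_ ?_).trans (three_bound hdR (by exact_mod_cast hd2))
    · intro x hx
      rw [hA, mem_filter, mem_Ico] at hx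
      constructor
      · exact_mod_cast hx.1.1
      · have : (x : ℝ) < 2 * H := by exact_mod_cast hx.1.2
        linarith
    · intro x hx
      rw [hA, mem_filter] at hx
      exact hx.2
  have hM0 : 0 ≤ 1 + 8 * Δ * ((J : ℝ) / g) ^ 2 := by positivity
  refine (fib (QT H J Δ d g) (fun v => (v.1.1, v.2.1)) (A ×ˢ A) ?_
    (1 + 8 * Δ * ((J : ℝ) / g) ^ 2) ?_).trans (mul_le_mul_of_nonneg_right (card_sq hAc) hM0)
  · intro v hv
    unfold QT at hv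
    rw [mem_filter] at hv
    obtain ⟨hv1, hv2⟩ := hv
    have e1 : Nat.gcd v.1.1 v.2.1 = d := (Prod.mk.injEq _ _ _ _ ▸ hv2).1
    obtain ⟨h1, -, h3, -⟩ := QS_bd hv1
    rw [mem_product, hA, mem_filter, mem_filter, mem_Ico, mem_Ico]
    exact ⟨⟨h1, e1 ▸ Nat.gcd_dvd_left _ _⟩, ⟨h3, e1 ▸ Nat.gcd_dvd_right _ _⟩⟩
  · intro b hb
    have key := spacing ((QT H J Δ d g).filter (fun v => (v.1.1, v.2.1) = b))
      (fun v => (v.2.2 : ℝ) / v.1.2) (((b.1 : ℝ) / b.2) ^ 2 - Δ) (2 * Δ) ((g : ℝ) ^ 2 / (2 * J) ^ 2)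
      (by positivity) (by positivity) ?_ ?_
    · refine key.trans (le_of_eq ?_)
      field_simp
      ring
    · intro v hv
      rw [mem_filter] at hv
      obtain ⟨hv1, hv2⟩ := hv
      unfold QT at hv1
      rw [mem_filter] at hv1
      have hc := QS_close hH hJ hΔ hv1.1
      have e1 : v.1.1 = b.1 := by rw [← hv2]
      have e2 : v.2.1 = b.2 := by rw [← hv2]
      rw [e1, e2] at hc
      have hc' := abs_le.1 hc
      constructor <;> linarith [hc'.1, hc'.2]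
    · intro v hv w hw hne
      rw [mem_filter] at hv hw
      obtain ⟨hv1, hv2⟩ := hv
      obtain ⟨hw1, hw2⟩ := hw
      unfold QT at hv1 hw1
      rw [mem_filter] at hv1 hw1
      have g1 : Nat.gcd v.1.2 v.2.2 = g := congrArg Prod.snd hv1.2
      have g2 : Nat.gcd w.1.2 w.2.2 = g := congrArg Prod.snd hw1.2
      obtain ⟨-, ⟨a1, a2⟩, -, -⟩ := QS_bd hv1.1
      obtain ⟨-, ⟨b1, b2⟩, -, -⟩ := QS_bd hw1.1
      apply frac_ge (by omega) (by omega) g1 g2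
      · rintro ⟨c1, c2⟩
        apply hne
        have e1 : v.1.1 = w.1.1 := (congrArg Prod.fst hv2).trans (congrArg Prod.fst hw2).symm
        have e2 : v.2.1 = w.2.1 := (congrArg Prod.snd hv2).trans (congrArg Prod.snd hw2).symm
        exact Prod.ext (Prod.ext e1 c1) (Prod.ext e2 c2)
      · exact_mod_cast a2
      · exact_mod_cast b2

theorem bound2 {H J : ℕ} {Δ : ℝ} (hH : 1 ≤ H) (hJ : 1 ≤ J) (hΔ : 0 ≤ Δ) {d g : ℕ} (hd : 1 ≤ d)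
    (hg : 1 ≤ g) (hg2 : g ≤ 2 * J) :
    (#(QT H J Δ d g) : ℝ) ≤ 9 * ((J : ℝ) / g) ^ 2 * (1 + 8 * Δ * ((H : ℝ) / d) ^ 2) := by
  have hdR : (0 : ℝ) < d := by exact_mod_cast hd
  have hgR : (0 : ℝ) < g := by exact_mod_cast hg
  have hHR : (1 : ℝ) ≤ H := by exact_mod_cast hH
  set A : Finset ℕ := (Ioc J (2 * J)).filter (fun x => g ∣ x) with hA
  have hAc : (#A : ℝ) ≤ 3 * ((J : ℝ) / g) := by
    refine (mult_card A J J g hg (Nat.cast_nonneg _) ?_ ?_).trans (three_bound hgR (by exact_mod_cast hg2))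
    · intro x hx
      rw [hA, mem_filter, mem_Ioc] at hx
      constructor
      · exact_mod_cast hx.1.1.le
      · have : (x : ℝ) ≤ 2 * J := by exact_mod_cast hx.1.2
        linarith
    · intro x hx
      rw [hA, mem_filter] at hx
      exact hx.2
  have hM0 : 0 ≤ 1 + 8 * Δ * ((H : ℝ) / d) ^ 2 := by positivity
  refine (fib (QT H J Δ d g) (fun v => (v.1.2, v.2.2)) (A ×ˢ A) ?_
    (1 + 8 * Δ * ((H : ℝ) / d) ^ 2) ?_).trans (mul_le_mul_of_nonneg_right (card_sq hAc) hM0)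
  · intro v hv
    unfold QT at hv
    rw [mem_filter] at hv
    obtain ⟨hv1, hv2⟩ := hv
    have e1 : Nat.gcd v.1.2 v.2.2 = g := congrArg Prod.snd hv2
    obtain ⟨-, h1, -, h3⟩ := QS_bd hv1
    rw [mem_product, hA, mem_filter, mem_filter, mem_Ioc, mem_Ioc]
    exact ⟨⟨h1, e1 ▸ Nat.gcd_dvd_left _ _⟩, ⟨h3, e1 ▸ Nat.gcd_dvd_right _ _⟩⟩
  · intro b hb
    have key := spacing ((QT H J Δ d g).filter (fun v => (v.1.2, v.2.2) = b))
      (fun v => ((v.1.1 : ℝ) / v.2.1) ^ 2) ((b.2 : ℝ) / b.1 - Δ) (2 * Δ) ((d : ℝ) ^ 2 / (2 * H) ^ 2)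
      (by positivity) (by positivity) ?_ ?_
    · refine key.trans (le_of_eq ?_)
      field_simp
      ring
    · intro v hv
      rw [mem_filter] at hv
      obtain ⟨hv1, hv2⟩ := hv
      unfold QT at hv1
      rw [mem_filter] at hv1
      have hc := QS_close hH hJ hΔ hv1.1
      have e1 : v.1.2 = b.1 := by rw [← hv2]
      have e2 : v.2.2 = b.2 := by rw [← hv2]
      rw [e1, e2] at hc
      have hc' := abs_le.1 hc
      constructor <;> linarith [hc'.1, hc'.2]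
    · intro v hv w hw hne
      rw [mem_filter] at hv hw
      obtain ⟨hv1, hv2⟩ := hv
      obtain ⟨hw1, hw2⟩ := hw
      unfold QT at hv1 hw1
      rw [mem_filter] at hv1 hw1
      have g1 : Nat.gcd v.2.1 v.1.1 = d := by
        rw [Nat.gcd_comm]; exact congrArg Prod.fst hv1.2
      have g2 : Nat.gcd w.2.1 w.1.1 = d := by
        rw [Nat.gcd_comm]; exact congrArg Prod.fst hw1.2
      obtain ⟨⟨a1, a2⟩, -, ⟨a3, a4⟩, -⟩ := QS_bd hv1.1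
      obtain ⟨⟨b1, b2⟩, -, ⟨b3, b4⟩, -⟩ := QS_bd hw1.1
      have hfr : (d : ℝ) ^ 2 / (2 * H) ^ 2 ≤ |(v.1.1 : ℝ) / v.2.1 - w.1.1 / w.2.1| := by
        apply frac_ge (by omega) (by omega) g1 g2
        · rintro ⟨c1, c2⟩
          apply hne
          have e1 : v.1.2 = w.1.2 := (congrArg Prod.fst hv2).trans (congrArg Prod.fst hw2).symm
          have e2 : v.2.2 = w.2.2 := (congrArg Prod.snd hv2).trans (congrArg Prod.snd hw2).symm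
          exact Prod.ext (Prod.ext c2 e1) (Prod.ext c1 e2)
        · exact_mod_cast a4.le
        · exact_mod_cast b4.le
      have half : ∀ p q : ℕ, H ≤ p → H ≤ q → q < 2 * H → (1 : ℝ) / 2 ≤ (p : ℝ) / q := by
        intro p q hp hq hq2
        have hq0 : (0 : ℝ) < q := by
          have : 0 < q := by omega
          exact_mod_cast this
        rw [div_le_div_iff₀ two_pos hq0]
        have c1 : (H : ℝ) ≤ p := by exact_mod_cast hp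
        have c2 : (q : ℝ) < 2 * H := by exact_mod_cast hq2
        linarith
      have s1 := half _ _ a1 a3 a4
      have s2 := half _ _ b1 b3 b4
      have e : ((v.1.1 : ℝ) / v.2.1) ^ 2 - ((w.1.1 : ℝ) / w.2.1) ^ 2 =
          ((v.1.1 : ℝ) / v.2.1 - w.1.1 / w.2.1) * ((v.1.1 : ℝ) / v.2.1 + w.1.1 / w.2.1) := by ring
      show (d : ℝ) ^ 2 / (2 * H) ^ 2 ≤ |((v.1.1 : ℝ) / v.2.1) ^ 2 - ((w.1.1 : ℝ) / w.2.1) ^ 2|
      rw [e, abs_mul, abs_of_pos (by linarith : 0 < (v.1.1 : ℝ) / v.2.1 + w.1.1 / w.2.1)]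
      have s3 : 1 ≤ (v.1.1 : ℝ) / v.2.1 + w.1.1 / w.2.1 := by linarith
      exact hfr.trans (le_mul_of_one_le_right (abs_nonneg _) s3)

theorem harm (n : ℕ) : ∑ d ∈ Icc 1 n, ((d : ℝ))⁻¹ ≤ 1 + Real.log n := by
  have h := harmonic_le_one_add_log n
  rw [harmonic_eq_sum_Icc] at h
  push_cast at h
  exact h

theorem t_SP : S_SP := by
  have hsum : Summable (fun n : ℕ => ((n : ℝ) ^ 2)⁻¹) := Real.summable_nat_pow_inv.2 one_lt_two
  set Z : ℝ := ∑' n : ℕ, ((n : ℝ) ^ 2)⁻¹ with hZ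
  have hZn : ∀ n : ℕ, ∑ d ∈ Icc 1 n, ((d : ℝ) ^ 2)⁻¹ ≤ Z := fun n =>
    hsum.sum_le_tsum _ (fun _ _ => by positivity)
  refine ⟨36 + 72 * Z ^ 2, by positivity, ?_⟩
  intro H J Δ hH hJ hΔ
  have hHR : (1 : ℝ) ≤ H := by exact_mod_cast hH
  have hJR : (1 : ℝ) ≤ J := by exact_mod_cast hJ
  show (#(QS H J Δ) : ℝ) ≤ _
  have hmaps : ∀ v ∈ QS H J Δ, (Nat.gcd v.1.1 v.2.1, Nat.gcd v.1.2 v.2.2) ∈
      Icc 1 (2 * H) ×ˢ Icc 1 (2 * J) := by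
    intro v hv
    obtain ⟨⟨a1, a2⟩, ⟨a3, a4⟩, -, -⟩ := QS_bd hv
    rw [mem_product, mem_Icc, mem_Icc]
    have c1 : 0 < v.1.1 := by omega
    have c2 : 0 < v.1.2 := by omega
    exact ⟨⟨Nat.gcd_pos_of_pos_left _ c1, (Nat.gcd_le_left _ c1).trans a2.le⟩,
      ⟨Nat.gcd_pos_of_pos_left _ c2, (Nat.gcd_le_left _ c2).trans a4⟩⟩
  rw [Finset.card_eq_sum_card_fiberwise hmaps]
  push_cast
  have hb : ∀ b ∈ Icc 1 (2 * H) ×ˢ Icc 1 (2 * J),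
      (#((QS H J Δ).filter (fun v => (Nat.gcd v.1.1 v.2.1, Nat.gcd v.1.2 v.2.2) = b)) : ℝ) ≤
      9 * (H * J) * (((b.1 : ℝ))⁻¹ * ((b.2 : ℝ))⁻¹) +
        72 * Δ * (H * J) ^ 2 * (((b.1 : ℝ) ^ 2)⁻¹ * ((b.2 : ℝ) ^ 2)⁻¹) := by
    intro b hb
    rw [mem_product, mem_Icc, mem_Icc] at hb
    obtain ⟨⟨c1, c2⟩, c3, c4⟩ := hb
    have d1 : (0 : ℝ) < b.1 := by exact_mod_cast c1
    have d2 : (0 : ℝ) < b.2 := by exact_mod_cast c3
    have h3 := min_bound (by positivity) (by positivity) (bound1 hH hJ hΔ c1 c2 c3)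
      (bound2 hH hJ hΔ c1 c3 c4)
    refine h3.trans (le_of_eq ?_)
    field_simp
  refine (Finset.sum_le_sum hb).trans ?_
  have q1 : ∑ b ∈ Icc 1 (2 * H) ×ˢ Icc 1 (2 * J), (((b.1 : ℝ))⁻¹ * ((b.2 : ℝ))⁻¹) =
      (∑ d ∈ Icc 1 (2 * H), ((d : ℝ))⁻¹) * (∑ d ∈ Icc 1 (2 * J), ((d : ℝ))⁻¹) := by
    rw [Finset.sum_mul_sum, Finset.sum_product]
  have q2 : ∑ b ∈ Icc 1 (2 * H) ×ˢ Icc 1 (2 * J), (((b.1 : ℝ) ^ 2)⁻¹ * ((b.2 : ℝ) ^ 2)⁻¹) =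
      (∑ d ∈ Icc 1 (2 * H), ((d : ℝ) ^ 2)⁻¹) * (∑ d ∈ Icc 1 (2 * J), ((d : ℝ) ^ 2)⁻¹) := by
    rw [Finset.sum_mul_sum, Finset.sum_product]
  rw [Finset.sum_add_distrib, ← Finset.mul_sum, ← Finset.mul_sum, q1, q2]
  have hHJ : (1 : ℝ) ≤ H * J := one_le_mul_of_one_le_of_one_le hHR hJR
  have hL0 : 0 ≤ Real.log (H * J) := Real.log_nonneg hHJ
  have l2 : Real.log 2 ≤ 1 := by
    have := Real.log_two_lt_d9
    linarith
  have hlogHJ : Real.log (H * J) = Real.log H + Real.log J :=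
    Real.log_mul (by positivity) (by positivity)
  have lH : 0 ≤ Real.log (H : ℝ) := Real.log_nonneg hHR
  have lJ : 0 ≤ Real.log (J : ℝ) := Real.log_nonneg hJR
  have s1 : ∑ d ∈ Icc 1 (2 * H), ((d : ℝ))⁻¹ ≤ 2 * (1 + Real.log (H * J)) := by
    refine (harm _).trans ?_
    push_cast
    rw [Real.log_mul two_ne_zero (by positivity)]
    linarith
  have s2 : ∑ d ∈ Icc 1 (2 * J), ((d : ℝ))⁻¹ ≤ 2 * (1 + Real.log (H * J)) := by
    refine (harm _).trans ?_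
    push_cast
    rw [Real.log_mul two_ne_zero (by positivity)]
    linarith
  have n1 : 0 ≤ ∑ d ∈ Icc 1 (2 * J), ((d : ℝ))⁻¹ := Finset.sum_nonneg fun _ _ => by positivity
  have n2 : 0 ≤ ∑ d ∈ Icc 1 (2 * J), ((d : ℝ) ^ 2)⁻¹ := Finset.sum_nonneg fun _ _ => by positivity
  have hZ0 : 0 ≤ Z := n2.trans (hZn _)
  have t1 : (∑ d ∈ Icc 1 (2 * H), ((d : ℝ))⁻¹) * (∑ d ∈ Icc 1 (2 * J), ((d : ℝ))⁻¹) ≤
      4 * (1 + Real.log (H * J)) ^ 2 := by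
    calc _ ≤ (2 * (1 + Real.log (H * J))) * (2 * (1 + Real.log (H * J))) :=
          mul_le_mul s1 s2 n1 (by positivity)
      _ = _ := by ring
  have t2 : (∑ d ∈ Icc 1 (2 * H), ((d : ℝ) ^ 2)⁻¹) * (∑ d ∈ Icc 1 (2 * J), ((d : ℝ) ^ 2)⁻¹) ≤
      Z ^ 2 := by
    calc _ ≤ Z * Z := mul_le_mul (hZn _) (hZn _) n2 hZ0
      _ = _ := by ring
  have u1 : 9 * ((H : ℝ) * J) * ((∑ d ∈ Icc 1 (2 * H), ((d : ℝ))⁻¹) *
      (∑ d ∈ Icc 1 (2 * J), ((d : ℝ))⁻¹)) ≤ 9 * ((H : ℝ) * J) * (4 * (1 + Real.log (H * J)) ^ 2) :=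
    mul_le_mul_of_nonneg_left t1 (by positivity)
  have u2 : 72 * Δ * ((H : ℝ) * J) ^ 2 * ((∑ d ∈ Icc 1 (2 * H), ((d : ℝ) ^ 2)⁻¹) *
      (∑ d ∈ Icc 1 (2 * J), ((d : ℝ) ^ 2)⁻¹)) ≤ 72 * Δ * ((H : ℝ) * J) ^ 2 * Z ^ 2 :=
    mul_le_mul_of_nonneg_left t2 (by positivity)
  have v1 : 0 ≤ 72 * Z ^ 2 * ((H : ℝ) * J * (1 + Real.log (H * J)) ^ 2) := by positivity
  have v2 : 0 ≤ 36 * (Δ * ((H : ℝ) * J) ^ 2) := by positivity
  nlinarith [u1, u2, v1, v2]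

end Pool.Agent.H976.PH
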